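import Pool.Agent.QSN.StmtsB
import Pool.Agent.Helper95_QSX.BCH
import Pool.Agent.Helper28_QSX.LGM
import Pool.Agent.Helper99_QSX.DEX
import Pool.Agent.Helper59_QSX.RLG
import Pool.Agent.Helper77_QSX.NRE
import Pool.Agent.Helper41_QSX.NRF
import Pool.Agent.Helper3_QSX.LGP
import Pool.Agent.Helper21_QSX.RNF
import Pool.Agent.Helper99_QSX.RDM

set_option autoImplicit false

/-!
# Row AQM of squad QSN: the data over the residue field (adapted from row GAA of squad QSX)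
-/

namespace Pool.Agent.QSN.H11

open Matrix Finset Pool.Agent.QSX Pool.Agent.QSN Filter

theorem dual_zero {X : Dat} (hX : MS X) (Ψ : Set hX.ι) : (0 : X.b) ∈ hX.dual Ψ := by
  intro ν _
  rw [map_zero]

theorem dual_cone {X : Dat} (hX : MS X) (Ψ : Set hX.ι) :
    ∀ a ∈ hX.dual Ψ, ∀ c : ℝ, 0 ≤ c → c • a ∈ hX.dual Ψ := by
  intro a ha c hc ν hν
  rw [map_smul, smul_eq_mul]
  exact mul_nonneg hc (ha ν hν)

theorem lgp0 : LgpStmt := Pool.Agent.QSX.H3.lgp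
  (Pool.Agent.QSX.H95.bch Pool.Agent.QSX.H28.lgm Pool.Agent.QSX.H99.dex)

/-- the elements of `Γ` are exponentials of elements of `X.n` -/
theorem gam_ue {X : Dat} (hX : MS X) : ∀ g ∈ hX.Gam, ∃ z ∈ X.n, g = ue z := by
  obtain ⟨G, hG⟩ := lgp0 ℝ X.m X.n X.su X.lie
  intro g hg
  rw [← hG]
  have h1 : hX.Gam ≤ G := by
    unfold MS.Gam
    rw [Subgroup.closure_le]
    rintro _ ⟨l, x, rfl⟩
    refine (hG _).2 ⟨(x : ℝ) • hX.e l, X.n.smul_mem _ ?_, rfl⟩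
    rw [← hX.span_e]
    exact Submodule.subset_span ⟨l, rfl⟩
  exact h1 hg

theorem gam_diff {X : Dat} (hX : MS X) : ∀ n ∈ hX.Gam, ∀ n' ∈ hX.Gam,
    ∃ z ∈ Submodule.span ℝ (hX.e '' Set.univ), n' = n * ue z := by
  intro n hn n' hn'
  obtain ⟨z, hz, e⟩ := gam_ue hX (n⁻¹ * n') (hX.Gam.mul_mem (hX.Gam.inv_mem hn) hn')
  refine ⟨z, ?_, ?_⟩
  · rw [Set.image_univ, hX.span_e]
    exact hz
  · rw [← e, mul_inv_cancel_left]

theorem ex_bd {m : ℕ} (z : Matrix (Fin m) (Fin m) ℝ) : ∃ K : ℝ, ∀ i j, |z i j| ≤ K := by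
  refine ⟨∑ i, ∑ j, |z i j|, fun i j => ?_⟩
  have h1 : |z i j| ≤ ∑ j, |z i j| :=
    Finset.single_le_sum (f := fun j => |z i j|) (fun j _ => abs_nonneg _) (Finset.mem_univ j)
  have h2 : ∑ j, |z i j| ≤ ∑ i, ∑ j, |z i j| :=
    Finset.single_le_sum (f := fun i => ∑ j, |z i j|)
      (fun i _ => Finset.sum_nonneg fun j _ => abs_nonneg _) (Finset.mem_univ i)
  exact h1.trans h2

theorem aqm : AqmStmt := by
  classical
  intro X Y hX H A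
  have hLgm := Pool.Agent.QSX.H28.lgm
  have hRdm := Pool.Agent.QSX.H99.rdm
  have hRlg := Pool.Agent.QSX.H59.rlg hRdm
  have hNre := Pool.Agent.QSX.H77.nre hRdm
  have hNrf := Pool.Agent.QSX.H41.nrf
  have hRnf := Pool.Agent.QSX.H21.rnf
  obtain ⟨G, hG⟩ := lgp0 ℝ Y.m Y.n Y.su Y.lie
  obtain ⟨rMul, -, rConst, -, rZero⟩ := hRdm A.S Y.m
  -- constant sequences
  have hGood : ∀ n ∈ hX.Gam, A.toBas.Good (fun _ => n) := fun n hn => A.gam n hn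
  have hBd : ∀ n ∈ hX.Gam, A.toBas.Bd (fun _ => n) := by
    intro n hn
    obtain ⟨x, hx, e⟩ := gam_ue hX n hn
    obtain ⟨K, hK⟩ := ex_bd x
    exact ⟨K, Eventually.of_forall fun s => ⟨x, hx, e, hK⟩⟩
  have hnear : ∀ n ∈ hX.Gam, ∀ n' ∈ hX.Gam, ∀ Ψ : Set hX.ι,
      ∀ z ∈ Submodule.span ℝ (hX.e '' Ψ), n' = n * ue z →
      A.S.Cl A.P ({a | ‖a‖ ≤ 1} ∩ hX.dual Ψ)
        (fun s => (((A.χ s n)⁻¹ * A.χ s n' : UX Y) : Matrix _ _ ℝ)) := by
    intro n hn n' hn' Ψ z hz e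
    obtain ⟨K, hK⟩ := ex_bd z
    have h1 := A.near (fun _ => n) (fun _ => n') (hGood n hn) (hGood n' hn') (hBd n hn)
      (hBd n' hn') Ψ (fun _ => z) K 0 le_rfl (Eventually.of_forall fun s => ⟨hz, fun i j => by
        rw [zero_mul, neg_zero, Real.exp_zero, mul_one]
        exact hK i j, e⟩)
    have h2 : {a : X.b | ∀ ν ∈ Ψ, -(0 : ℝ) ≤ hX.rt ν a} = hX.dual Ψ := by
      ext a
      rw [neg_zero]
      rfl
    rw [h2] at h1
    exact h1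
  let v : (Matrix (Fin X.m) (Fin X.m) ℝ)ˣ → (Matrix (Fin X.m) (Fin X.m) ℝ)ˣ → ℕ →
      (Matrix (Fin Y.m) (Fin Y.m) ℝ)ˣ := fun n n' s => (A.χ s n)⁻¹ * A.χ s n'
  have hv : ∀ n n' s, ∃ y ∈ Y.n, v n n' s = ue y := by
    intro n n' s
    rw [← hG]
    exact G.mul_mem (G.inv_mem ((hG _).2 (A.χn s n))) ((hG _).2 (A.χn s n'))
  have hUU : ∀ n n' s,
      UU ((v n n' s : (Matrix (Fin Y.m) (Fin Y.m) ℝ)ˣ) : Matrix (Fin Y.m) (Fin Y.m) ℝ) := by
    intro n n' s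
    obtain ⟨y, hy, e⟩ := hv n n' s
    rw [e, ue_val (Y.su y hy)]
    exact ((hLgm ℝ Y.m).1 y (Y.su y hy)).1
  have hMd : ∀ n ∈ hX.Gam, ∀ n' ∈ hX.Gam, A.S.MdM (fun s =>
      ((v n n' s : (Matrix (Fin Y.m) (Fin Y.m) ℝ)ˣ) : Matrix (Fin Y.m) (Fin Y.m) ℝ)) := by
    intro n hn n' hn'
    obtain ⟨z, hz, e⟩ := gam_diff hX n hn n' hn'
    exact (hNre A.S X.b Y.m A.P (hX.dual Set.univ) (dual_zero hX _) (dual_cone hX _) _
      (hUU n n') (hnear n hn n' hn' Set.univ z hz e)).1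
  let R : (Matrix (Fin X.m) (Fin X.m) ℝ)ˣ → (Matrix (Fin X.m) (Fin X.m) ℝ)ˣ →
      Matrix (Fin Y.m) (Fin Y.m) A.S.FF := fun n n' =>
    A.S.redM (fun s => ((v n n' s : (Matrix (Fin Y.m) (Fin Y.m) ℝ)ˣ) :
      Matrix (Fin Y.m) (Fin Y.m) ℝ))
  have hRmul : ∀ n ∈ hX.Gam, ∀ n' ∈ hX.Gam, ∀ n'' ∈ hX.Gam, R n n' * R n' n'' = R n n'' := by
    intro n hn n' hn' n'' hn''
    have h1 := (rMul _ _ (hMd n hn n' hn') (hMd n' hn' n'' hn'')).2
    show A.S.redM _ * A.S.redM _ = A.S.redM _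
    rw [← h1]
    congr 1
    funext s
    rw [← Units.val_mul]
    congr 1
    show ((A.χ s n)⁻¹ * A.χ s n') * ((A.χ s n')⁻¹ * A.χ s n'') = (A.χ s n)⁻¹ * A.χ s n''
    group
  have hRone : ∀ n, R n n = 1 := by
    intro n
    have h1 := (rConst 1).2
    rw [Matrix.map_one _ (map_zero _) (map_one _)] at h1
    rw [← h1]
    show A.S.redM _ = A.S.redM _
    congr 1
    funext s
    show ((((A.χ s n)⁻¹ * A.χ s n : (Matrix (Fin Y.m) (Fin Y.m) ℝ)ˣ)) :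
      Matrix (Fin Y.m) (Fin Y.m) ℝ) = 1
    rw [inv_mul_cancel, Units.val_one]
  have h1Γ : (1 : (Matrix (Fin X.m) (Fin X.m) ℝ)ˣ) ∈ hX.Gam := one_mem _
  let ψ' : (Matrix (Fin X.m) (Fin X.m) ℝ)ˣ → (Matrix (Fin Y.m) (Fin Y.m) A.S.FF)ˣ := fun n =>
    if h : n ∈ hX.Gam then
      ⟨R 1 n, R n 1, by rw [hRmul 1 h1Γ n h 1 h1Γ, hRone], by rw [hRmul n h 1 h1Γ n h, hRone]⟩
    else 1
  have hψ : ∀ n ∈ hX.Gam, ∀ n' ∈ hX.Gam, ((ψ' n)⁻¹ * ψ' n').val = R n n' := by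
    intro n hn n' hn'
    rw [Units.val_mul]
    simp only [ψ', dif_pos hn, dif_pos hn']
    exact hRmul n hn 1 h1Γ n' hn'
  refine ⟨⟨ψ', ?_, ?_, ?_⟩, hψ⟩
  · -- val
    intro n hn n' hn'
    have hm : ∀ s, mlog ((v n n' s : (Matrix (Fin Y.m) (Fin Y.m) ℝ)ˣ) :
        Matrix (Fin Y.m) (Fin Y.m) ℝ) ∈ Y.n ∧ mexp (mlog ((v n n' s :
        (Matrix (Fin Y.m) (Fin Y.m) ℝ)ˣ) : Matrix (Fin Y.m) (Fin Y.m) ℝ)) =
        ((v n n' s : (Matrix (Fin Y.m) (Fin Y.m) ℝ)ˣ) : Matrix (Fin Y.m) (Fin Y.m) ℝ) := by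
      intro s
      refine ⟨?_, ((hLgm ℝ Y.m).2 _ (hUU n n' s)).2⟩
      obtain ⟨y, hy, e⟩ := hv n n' s
      rw [e, ue_val (Y.su y hy), ((hLgm ℝ Y.m).1 y (Y.su y hy)).2]
      exact hy
    have h1 := (hRlg A.S Y.m _ (hMd n hn n' hn')).2
    have h2 := hRnf A.S Y _ (fun s => (hm s).1) h1.1
    have h3 := ((hRlg A.S Y.m _ h1.1).1).2
    have hSU : SU (A.S.redM (fun s => mlog ((v n n' s : (Matrix (Fin Y.m) (Fin Y.m) ℝ)ˣ) :
        Matrix (Fin Y.m) (Fin Y.m) ℝ))) := by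
      intro i j hij
      rw [rZero _ h1.1]
      have : (fun s => mlog ((v n n' s : (Matrix (Fin Y.m) (Fin Y.m) ℝ)ˣ) :
        Matrix (Fin Y.m) (Fin Y.m) ℝ) i j) = 0 := by
        funext s
        exact Y.su _ (hm s).1 i j hij
      rw [this]
      exact Scale.Sm.zero A.S
    refine ⟨_, h2, ?_⟩
    apply Units.ext
    rw [hψ n hn n' hn', ue_val hSU, ← h3]
    show A.S.redM _ = A.S.redM _
    congr 1
    funext s
    exact (hm s).2.symm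
  · -- supp
    intro n hn n' hn' Ψ z hz e i l hil h
    rw [hψ n hn n' hn'] at h
    refine ⟨(hNre A.S X.b Y.m A.P (hX.dual Ψ) (dual_zero hX _) (dual_cone hX _) _
      (hUU n n') (hnear n hn n' hn' Ψ z hz e)).2 i l hil h, ?_⟩
    by_contra hcon
    push Not at hcon
    apply h
    exact (rZero _ (hMd n hn n' hn') i l).2 (A.zero (fun _ => n) (fun _ => n') (hGood n hn)
      (hGood n' hn') (hBd n hn) (hBd n' hn') i l hil hcon)
  · -- nondeg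
    intro n hn l x hx hone
    have hn' : n * ue ((x : ℝ) • hX.e l) ∈ hX.Gam :=
      hX.Gam.mul_mem hn (Subgroup.subset_closure ⟨l, x, rfl⟩)
    have hR1 : R n (n * ue ((x : ℝ) • hX.e l)) = 1 := by
      rw [← hψ n hn _ hn', hone, Units.val_one]
    obtain ⟨a₀, ha₀⟩ := hX.pos
    obtain ⟨a, ha1, ha2⟩ : ∃ a : X.b, ‖a‖ ≤ 1 ∧ hX.rt l a < 0 := by
      refine ⟨-((1 + ‖a₀‖)⁻¹ • a₀), ?_, ?_⟩
      · rw [norm_neg, norm_smul, Real.norm_of_nonneg (by positivity)]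
        rw [inv_mul_le_iff₀ (by positivity)]
        linarith
      · rw [map_neg, map_smul, smul_eq_mul]
        have := ha₀ l
        have h2 : 0 < (1 + ‖a₀‖)⁻¹ * hX.rt l a₀ := by positivity
        linarith
    obtain ⟨t, ht0, ht1, hCl⟩ := hNrf A.S X.b Y.m A.P _ (hMd n hn _ hn') (by
      rintro i k hik _
      rw [← rZero _ (hMd n hn _ hn')]
      have h3 := congrFun (congrFun hR1 i) k
      rw [Matrix.one_apply_ne hik.ne] at h3
      exact h3) a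
    -- an entry of `x • e l` which is not zero
    obtain ⟨i, j, hij⟩ : ∃ i j, ((x : ℝ) • hX.e l) i j ≠ 0 := by
      by_contra hc
      push Not at hc
      have h3 : (x : ℝ) • hX.e l = 0 := by
        ext i j
        exact hc i j
      rcases smul_eq_zero.1 h3 with h4 | h4
      · exact hx (by exact_mod_cast h4)
      · exact hX.lin.ne_zero l h4
    refine A.far (fun _ => n) (fun _ => n * ue ((x : ℝ) • hX.e l)) (hGood n hn)
      (hGood _ hn') (hBd n hn) (hBd _ hn') l (fun _ => (x : ℝ) • hX.e l)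
      |((x : ℝ) • hX.e l) i j| 0 (abs_pos.2 hij) le_rfl
      (Eventually.of_forall fun s => ⟨Submodule.smul_mem _ _ (Submodule.subset_span
        ⟨l, rfl, rfl⟩), ⟨i, j, by rw [zero_mul, neg_zero, Real.exp_zero, mul_one]⟩, rfl⟩)
      (t • a) ?_ ?_ hCl
    · rw [norm_smul, Real.norm_of_nonneg ht0.le]
      calc t * ‖a‖ ≤ 1 * 1 := mul_le_mul ht1 ha1 (norm_nonneg _) zero_le_one
        _ = 1 := one_mul 1
    · rw [map_smul, smul_eq_mul, neg_zero]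
      exact mul_neg_of_pos_of_neg ht0 ha2

end Pool.Agent.QSN.H11
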