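import Pool.Agent.QSN.StmtsB2
import Pool.Agent.Helper62_QSN.CVL

set_option autoImplicit false

/-!
# Row TOQ of squad QSN: from the vectors `w_k` to the basis of the top root space
-/

namespace Pool.Agent.QSN.H11

open Matrix Finset Pool.Agent.QSX

theorem toq_part {V : Type} {m : ℕ} {F : Type} [CommRing F] (P : V → Fin m → ℝ) (ρ : V → ℝ)
    {α : Type} (S : Finset α) (a : α → F) (C : α → Matrix (Fin m) (Fin m) F) :
    part P ρ (∑ t ∈ S, a t • C t) = ∑ t ∈ S, a t • part P ρ (C t) := by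
  classical
  ext i l
  simp only [part, Matrix.sum_apply, Matrix.smul_apply]
  split_ifs with h
  · rfl
  · simp

theorem toq_list {ι : Type} [Fintype ι] [DecidableEq ι] {M : Type} [AddCommGroup M] [Module ℝ M]
    (L : List (ι × ℕ × ℕ × ℚ)) (C : ι → M) :
    (L.map fun s => ((s.2.2.2 : ℚ) : ℝ) • C s.1).sum =
      ∑ t, (((L.map fun s => if s.1 = t then s.2.2.2 else 0).sum : ℚ) : ℝ) • C t := by
  induction L with
  | nil => simp
  | cons s L ih =>
    rw [List.map_cons, List.sum_cons, ih]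
    simp only [List.map_cons, List.sum_cons, Rat.cast_add, add_smul, Finset.sum_add_distrib]
    congr 1
    rw [Finset.sum_eq_single s.1]
    · rw [if_pos rfl]
    · intro b _ hb
      rw [if_neg hb.symm, Rat.cast_zero, zero_smul]
    · intro h
      exact absurd (Finset.mem_univ _) h

theorem toq_su {R : Type} [CommRing R] {m : ℕ} {α : Type} (S : Finset α)
    (f : α → Matrix (Fin m) (Fin m) R) (h : ∀ a ∈ S, SU (f a)) : SU (∑ a ∈ S, f a) := by
  intro i j hij
  rw [Matrix.sum_apply]
  exact Finset.sum_eq_zero fun a ha => h a ha i j hij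

/-- the rational coordinates of `w_k` -/
noncomputable def toqc {X : Dat} {hX : MS X} (H : Grd hX) (k : Fin H.D) (t : hX.ι) : ℚ :=
  ((hX.L (H.l k) (H.m k)).map fun s => if s.1 = t then s.2.2.2 else 0).sum

theorem toqc_br (wkt : WktStmt) {X : Dat} {hX : MS X} (H : Grd hX) {M : Type} [AddCommGroup M]
    [Module ℝ M] (C : hX.ι → M) (k : Fin H.D) :
    hX.br C (H.l k) (H.m k) = ∑ t, ((toqc H k t : ℚ) : ℝ) • C t := by
  unfold MS.br toqc
  rw [← toq_list]
  congr 2
  rw [List.filter_eq_self]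
  intro s hs
  have h := (wkt X hX H k).2.1 s hs
  simp only [decide_eq_true_eq]
  exact ⟨h.1, h.2.1⟩

theorem toqc_w (wkt : WktStmt) {X : Dat} {hX : MS X} (H : Grd hX) (k : Fin H.D) :
    H.w k = ∑ t, ((toqc H k t : ℚ) : ℝ) • hX.e t := by
  rw [(wkt X hX H k).1, toqc_br wkt]

theorem toqc_ne (wkt : WktStmt) {X : Dat} {hX : MS X} (H : Grd hX) (k : Fin H.D) (t : hX.ι)
    (h : toqc H k t ≠ 0) : hX.rt t = hX.rt (hX.top (hX.comp (H.l k))) := by
  by_contra hne
  apply h
  unfold toqc
  apply List.sum_eq_zero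
  intro x hx
  obtain ⟨s, hs, rfl⟩ := List.mem_map.1 hx
  refine if_neg fun e => hne ?_
  rw [← e]
  exact ((wkt X hX H k).2.1 s hs).2.2

theorem toq_comp {X : Dat} {hX : MS X} {j : hX.J} (hj : ¬ hX.One j) :
    hX.comp (hX.top j) = j := by
  unfold MS.One at hj
  push Not at hj
  obtain ⟨l, hl, -⟩ := hj
  rw [← hl]
  exact hX.comp_top l

/-- the dual coefficients -/
theorem toq_d (wkt : WktStmt) {X : Dat} {hX : MS X} (H : Grd hX) {j : hX.J} (hj : ¬ hX.One j)
    (t : hX.ι) (ht : hX.rt t = hX.rt (hX.top j)) :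
    ∃ d : Fin H.D → ℝ, (∀ k, hX.comp (H.l k) ≠ j → d k = 0) ∧
      ∀ t', ∑ k, d k * ((toqc H k t' : ℚ) : ℝ) = if t' = t then 1 else 0 := by
  classical
  have h1 := H.span j hj t ht
  obtain ⟨d, hd⟩ := (Submodule.mem_span_range_iff_exists_fun ℝ).1 h1
  have hd' : ∑ k, d k • H.w k = hX.e t := hd
  have h2 : ∀ t', ∑ k, d k * ((toqc H k t' : ℚ) : ℝ) = if t' = t then 1 else 0 := by
    intro t'
    have h3 : ∑ t', (∑ k, d k * ((toqc H k t' : ℚ) : ℝ) - (if t' = t then 1 else 0)) •
        hX.e t' = 0 := by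
      simp only [sub_smul, Finset.sum_sub_distrib, Finset.sum_smul]
      rw [Finset.sum_comm]
      have h5 : ∀ k, ∑ t', (d k * ((toqc H k t' : ℚ) : ℝ)) • hX.e t' = d k • H.w k := by
        intro k
        rw [toqc_w wkt, Finset.smul_sum]
        exact Finset.sum_congr rfl fun t' _ => by rw [smul_smul]
      rw [Finset.sum_congr rfl fun k _ => h5 k, hd', Finset.sum_eq_single t]
      · rw [if_pos rfl, one_smul, sub_self]
      · intro b _ hb
        rw [if_neg hb, zero_smul]
      · intro h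
        exact absurd (Finset.mem_univ _) h
    have h4 := Fintype.linearIndependent_iff.1 hX.lin _ h3 t'
    linarith
  refine ⟨fun k => if hX.comp (H.l k) = j then d k else 0, fun k hk => if_neg hk, ?_⟩
  intro t'
  by_cases ht' : hX.rt t' = hX.rt (hX.top j)
  · rw [← h2 t']
    refine Finset.sum_congr rfl fun k _ => ?_
    beta_reduce
    by_cases hk : hX.comp (H.l k) = j
    · rw [if_pos hk]
    · rw [if_neg hk, zero_mul]
      have h7 : toqc H k t' = 0 := by
        by_contra h
        have h5 := toqc_ne wkt H k t' h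
        have h6 := hX.comp_rt _ _ (ht'.symm.trans h5)
        rw [hX.comp_top, toq_comp hj] at h6
        exact hk h6.symm
      rw [h7, Rat.cast_zero, mul_zero]
  · have hne : t' ≠ t := fun e => ht' (e ▸ ht)
    rw [if_neg hne]
    refine Finset.sum_eq_zero fun k _ => ?_
    beta_reduce
    by_cases hk : hX.comp (H.l k) = j
    · have h7 : toqc H k t' = 0 := by
        by_contra h
        apply ht'
        rw [toqc_ne wkt H k t' h, hk]
      rw [h7, Rat.cast_zero, mul_zero]
    · rw [if_neg hk, zero_mul]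

/-- the logarithms of the central steps -/
theorem toq_L (wkt : WktStmt) (tad : TadStmt) (lgm : LgmStmt) (nfl : NflStmt) {X Y : Dat}
    {hX : MS X} (H : Grd hX) {F : Type} [Field F] [Algebra ℝ F]
    {P : X.b →ₗ[ℝ] (Fin Y.m → ℝ)} (A : AFM X Y hX F P) (k : Fin H.D) :
    mlog ((((A.χ 1)⁻¹ * A.χ (ue (H.w k)) : (Matrix (Fin Y.m) (Fin Y.m) F)ˣ)) : Matrix _ _ F) =
      ∑ t, ((toqc H k t : ℚ) : ℝ) • A.C t := by
  classical
  have hne : hX.L (H.l k) (H.m k) ≠ [] := by
    intro h
    have h1 := (wkt X hX H k).1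
    have h2 : H.w k = 0 := by
      rw [h1, MS.br, h]
      simp
    exact H.lin.ne_zero k h2
  obtain ⟨t0, ht0⟩ := List.exists_mem_of_ne_nil _ hne
  have hr0 := ((wkt X hX H k).2.1 t0 ht0).2.2
  have h3 := (tad X Y hX F P A _ _ (H.ne k) t0 ht0).2.1
    (univ.filter fun t => hX.rt t = hX.rt t0.1) (toqc H k)
    (fun t ht => (Finset.mem_filter.1 ht).2) 1 (one_mem _)
  have h4 : ∀ {M : Type} [AddCommGroup M] [Module ℝ M] (C : hX.ι → M),
      ∑ t ∈ univ.filter (fun t => hX.rt t = hX.rt t0.1), ((toqc H k t : ℚ) : ℝ) • C t =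
        ∑ t, ((toqc H k t : ℚ) : ℝ) • C t := by
    intro M _ _ C
    refine Finset.sum_filter_of_ne fun t _ ht => ?_
    rw [hr0]
    refine toqc_ne wkt H k t fun h => ht ?_
    rw [h, Rat.cast_zero, zero_smul]
  rw [one_mul, h4 hX.e, ← toqc_w wkt H k, h4 A.C] at h3
  have hsu : SU (∑ t, ((toqc H k t : ℚ) : ℝ) • A.C t) :=
    toq_su _ _ fun t _ => (H62.cvl lgm nfl X Y hX F P A t).2.1.smul _
  rw [h3, ue_val hsu]
  exact ((lgm F Y.m).1 _ hsu).2

/-- **TOQ**. -/
theorem toq (wkt : WktStmt) (tad : TadStmt) (lgm : LgmStmt) (nfl : NflStmt) : ToqStmt := by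
  intro X Y hX H F _ _ P A hyp j hj
  classical
  choose d hd0 hd1 using fun (t : {t : hX.ι // hX.rt t = hX.rt (hX.top j)}) =>
    toq_d wkt H hj t.1 t.2
  rw [Fintype.linearIndependent_iff]
  intro x hx
  set g : hX.ι → F := fun t => if h : hX.rt t = hX.rt (hX.top j) then x ⟨t, h⟩ else 0 with hg
  set v : Fin H.D → F := fun k => ∑ t, x t * algebraMap ℝ F (d t k) with hv
  -- the key identity
  have key : ∀ t' : hX.ι, ∑ k, v k * algebraMap ℝ F ((toqc H k t' : ℚ) : ℝ) = g t' := by
    intro t'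
    have e1 : ∑ k, v k * algebraMap ℝ F ((toqc H k t' : ℚ) : ℝ) =
        ∑ t, x t * algebraMap ℝ F (∑ k, d t k * ((toqc H k t' : ℚ) : ℝ)) := by
      simp only [hv, Finset.sum_mul, map_sum, map_mul, Finset.mul_sum, mul_assoc]
      rw [Finset.sum_comm]
    rw [e1]
    simp only [hd1]
    by_cases h : hX.rt t' = hX.rt (hX.top j)
    · rw [Finset.sum_eq_single ⟨t', h⟩]
      · rw [if_pos rfl, map_one, mul_one]
        simp only [hg]
        rw [dif_pos h]
      · intro b _ hb
        have hb' : t' ≠ b.1 := fun e => hb (Subtype.ext e.symm)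
        rw [if_neg hb', map_zero, mul_zero]
      · intro h'
        exact absurd (Finset.mem_univ _) h'
    · simp only [hg]
      rw [dif_neg h]
      refine Finset.sum_eq_zero fun b _ => ?_
      have hb' : t' ≠ b.1 := fun e => h (e ▸ b.2)
      rw [if_neg hb', map_zero, mul_zero]
  have hv0 : ∀ k, hX.comp (H.l k) ≠ j → v k = 0 := by
    intro k hk
    simp only [hv]
    refine Finset.sum_eq_zero fun t _ => ?_
    rw [hd0 t k hk, map_zero, mul_zero]
  have hv1 : v = 0 := by
    refine hyp j v hv0 ?_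
    have e2 : ∀ k, part P (fun a => hX.rt (hX.top j) a)
        (mlog ((((A.χ 1)⁻¹ * A.χ (ue (H.w k)) : (Matrix (Fin Y.m) (Fin Y.m) F)ˣ)) :
          Matrix _ _ F)) =
        ∑ t, algebraMap ℝ F ((toqc H k t : ℚ) : ℝ) •
          part P (fun a => hX.rt (hX.top j) a) (A.C t) := by
      intro k
      rw [toq_L wkt tad lgm nfl H A k, ← toq_part]
      congr 1
      exact Finset.sum_congr rfl fun t _ => (algebraMap_smul F _ _).symm
    have e3 : ∑ k, v k • part P (fun a => hX.rt (hX.top j) a)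
        (mlog ((((A.χ 1)⁻¹ * A.χ (ue (H.w k)) : (Matrix (Fin Y.m) (Fin Y.m) F)ˣ)) :
          Matrix _ _ F)) = ∑ t, g t • part P (fun a => hX.rt (hX.top j) a) (A.C t) := by
      rw [Finset.sum_congr rfl fun k _ => by rw [e2 k]]
      simp only [Finset.smul_sum, smul_smul]
      rw [Finset.sum_comm]
      refine Finset.sum_congr rfl fun t _ => ?_
      rw [← Finset.sum_smul, key t]
    have e4 : ∑ t, g t • part P (fun a => hX.rt (hX.top j) a) (A.C t) =
        ∑ t : {t : hX.ι // hX.rt t = hX.rt (hX.top j)},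
          x t • part P (fun a => hX.rt t.1 a) (A.C t.1) := by
      have e5 : ∑ t, g t • part P (fun a => hX.rt (hX.top j) a) (A.C t) =
          ∑ t ∈ univ.filter (fun t => hX.rt t = hX.rt (hX.top j)),
            g t • part P (fun a => hX.rt (hX.top j) a) (A.C t) := by
        symm
        refine Finset.sum_filter_of_ne fun t _ ht => ?_
        by_contra h
        apply ht
        simp only [hg]
        rw [dif_neg h, zero_smul]
      rw [e5, Finset.sum_subtype (p := fun t => hX.rt t = hX.rt (hX.top j)) _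
        (fun t => by simp)]
      refine Finset.sum_congr rfl fun t _ => ?_
      have e6 : g t.1 = x t := by
        simp only [hg]
        rw [dif_pos t.2]
      rw [e6, t.2]
    rw [e3, e4]
    exact hx
  intro t
  have h1 := key t.1
  rw [hv1] at h1
  simp only [Pi.zero_apply, zero_mul, Finset.sum_const_zero, hg] at h1
  rw [dif_pos t.2] at h1
  exact h1.symm

end Pool.Agent.QSN.H11
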